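import Mathlib.Combinatorics.Enumerative.Partition.Basic
import Mathlib.Data.Multiset.Powerset
import Mathlib.Algebra.BigOperators.Group.Multiset.Basic
import Mathlib.Algebra.Order.Archimedean.Real.Basic
import Mathlib.Analysis.SpecificLimits.Basic
import Mathlib.Tactic

/-!
# The multiset of pairwise products together with the sum determines a multiset of positive
integers
-/

namespace Pool.Agent.Q283.EpsTwo

/-- The multiset of the products of the `k`-element sub-multisets. -/
def eps (k : ℕ) (s : Multiset ℕ) : Multiset ℕ := (s.powersetCard k).map Multiset.prod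

theorem eps_one (s : Multiset ℕ) : eps 1 s = s := by
  unfold eps
  rw [Multiset.powersetCard_one, Multiset.map_map]
  simp

theorem eps_two_cons (a : ℕ) (s : Multiset ℕ) :
    eps 2 (a ::ₘ s) = eps 2 s + s.map (fun x => a * x) := by
  unfold eps
  rw [Multiset.powersetCard_cons, Multiset.powersetCard_one, Multiset.map_add,
    Multiset.map_map, Multiset.map_map]
  congr 1
  refine Multiset.map_congr rfl fun x _ => ?_
  simp

/-- power sums -/
def psum (r : ℕ) (s : Multiset ℕ) : ℕ := (s.map fun x => x ^ r).sum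

theorem psum_cons (r a : ℕ) (s : Multiset ℕ) : psum r (a ::ₘ s) = a ^ r + psum r s := by
  unfold psum
  rw [Multiset.map_cons, Multiset.sum_cons]

theorem psum_add (r : ℕ) (s t : Multiset ℕ) : psum r (s + t) = psum r s + psum r t := by
  unfold psum
  rw [Multiset.map_add, Multiset.sum_add]

theorem psum_mul (r a : ℕ) (s : Multiset ℕ) :
    psum r (s.map fun x => a * x) = a ^ r * psum r s := by
  unfold psum
  rw [Multiset.map_map, ← Multiset.sum_map_mul_left]
  refine congrArg Multiset.sum (Multiset.map_congr rfl fun x _ => ?_)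
  simp [mul_pow]

theorem newton (r : ℕ) (s : Multiset ℕ) :
    psum r s ^ 2 = psum (2 * r) s + 2 * psum r (eps 2 s) := by
  induction s using Multiset.induction_on with
  | empty => simp [psum, eps, Multiset.powersetCard_zero_right]
  | cons a s ih =>
    rw [eps_two_cons, psum_cons, psum_cons, psum_add, psum_mul, add_sq, ih]
    ring

theorem le_max_of_psum_le (s t : Multiset ℕ) (h : ∀ i, psum (2 ^ i) s ≤ psum (2 ^ i) t) (a : ℕ)
    (ha : a ∈ s) (ha0 : 0 < a) : ∃ b ∈ t, a ≤ b := by
  by_contra hcon
  push Not at hcon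
  have h1 : ∀ i, a ^ (2 ^ i) ≤ Multiset.card t * (a - 1) ^ (2 ^ i) := by
    intro i
    have h2 : a ^ (2 ^ i) ≤ psum (2 ^ i) s := by
      unfold psum
      exact Multiset.single_le_sum (fun _ _ => Nat.zero_le _) _ (Multiset.mem_map_of_mem _ ha)
    have h3 : psum (2 ^ i) t ≤ Multiset.card t * (a - 1) ^ (2 ^ i) := by
      unfold psum
      have := Multiset.sum_le_card_nsmul (t.map fun x => x ^ (2 ^ i)) ((a - 1) ^ (2 ^ i)) (by
        intro x hx
        rw [Multiset.mem_map] at hx
        obtain ⟨b, hb, rfl⟩ := hx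
        have := hcon b hb
        exact Nat.pow_le_pow_left (by omega) _)
      rwa [Multiset.card_map, smul_eq_mul] at this
    exact h2.trans ((h i).trans h3)
  have hy : ((a - 1 : ℕ) : ℝ) / a < 1 := by
    rw [div_lt_one (by exact_mod_cast ha0)]
    exact_mod_cast Nat.sub_lt ha0 one_pos
  have hy0 : 0 ≤ ((a - 1 : ℕ) : ℝ) / a := by positivity
  obtain ⟨n, hn⟩ := exists_pow_lt_of_lt_one (x := 1 / ((Multiset.card t : ℝ) + 1))
    (y := ((a - 1 : ℕ) : ℝ) / a) (by positivity) hy
  have h4 : (((a - 1 : ℕ) : ℝ) / a) ^ (2 ^ n) ≤ (((a - 1 : ℕ) : ℝ) / a) ^ n :=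
    pow_le_pow_of_le_one hy0 hy.le (Nat.lt_two_pow_self).le
  have h5 := h4.trans_lt hn
  rw [div_pow, div_lt_div_iff₀ (by positivity) (by positivity), one_mul] at h5
  have h6 : ((a : ℝ)) ^ (2 ^ n) ≤ Multiset.card t * ((a - 1 : ℕ) : ℝ) ^ (2 ^ n) := by
    exact_mod_cast h1 n
  have h7 : 0 ≤ ((a - 1 : ℕ) : ℝ) ^ (2 ^ n) := by positivity
  nlinarith

theorem eq_of_psum (s : Multiset ℕ) : ∀ t : Multiset ℕ, (∀ x ∈ s, 0 < x) → (∀ x ∈ t, 0 < x) →
    (∀ i, psum (2 ^ i) s = psum (2 ^ i) t) → s = t := by
  induction hn : Multiset.card s generalizing s with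
  | zero =>
    intro t _ ht h
    rw [Multiset.card_eq_zero] at hn
    subst hn
    by_contra hne
    obtain ⟨x, hx⟩ := Multiset.exists_mem_of_ne_zero (s := t) (fun h => hne h.symm)
    obtain ⟨b, hb, -⟩ := le_max_of_psum_le t 0 (fun i => (h i).ge) x hx (ht x hx)
    simp at hb
  | succ n ih =>
    intro t hs ht h
    have hne : s.toFinset.Nonempty := by
      rw [Multiset.toFinset_nonempty]
      rintro rfl
      simp at hn
    obtain ⟨M, hM, hmax⟩ := Finset.exists_max_image s.toFinset id hne
    rw [Multiset.mem_toFinset] at hM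
    obtain ⟨b, hb, hMb⟩ := le_max_of_psum_le s t (fun i => (h i).le) M hM (hs M hM)
    obtain ⟨c, hc, hbc⟩ := le_max_of_psum_le t s (fun i => (h i).ge) b hb (ht b hb)
    have hcM : c ≤ M := hmax c (Multiset.mem_toFinset.mpr hc)
    have hbM : b = M := by omega
    subst hbM
    obtain ⟨s', rfl⟩ := Multiset.exists_cons_of_mem hM
    obtain ⟨t', rfl⟩ := Multiset.exists_cons_of_mem hb
    rw [Multiset.card_cons] at hn
    have := ih s' (by omega) t' (fun x hx => hs x (Multiset.mem_cons_of_mem hx))
      (fun x hx => ht x (Multiset.mem_cons_of_mem hx)) (fun i => by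
        have := h i
        rw [psum_cons, psum_cons] at this
        omega)
    rw [this]

/-- A multiset of positive integers is determined by its sum and the multiset of its pairwise
products. -/
theorem eps_two_injective (s t : Multiset ℕ) (hs : ∀ x ∈ s, 0 < x) (ht : ∀ x ∈ t, 0 < x)
    (hsum : s.sum = t.sum) (h : eps 2 s = eps 2 t) : s = t := by
  refine eq_of_psum s t hs ht fun i => ?_
  induction i with
  | zero =>
    unfold psum
    simpa using hsum
  | succ i ih =>
    have h1 := newton (2 ^ i) s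
    have h2 := newton (2 ^ i) t
    rw [ih, h] at h1
    rw [pow_succ, mul_comm (2 ^ i) 2]
    omega

end Pool.Agent.Q283.EpsTwo
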