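import Mathlib

/-!
# Words with a given number of cyclic changes
-/

open Finset Polynomial

namespace Pool.Agent.Q283.GenusWords

/-- number of cyclic changes of a word -/
def ch {A : Type} [DecidableEq A] {N : ℕ} (w : Fin (N + 1) → A) : ℕ :=
  (univ.filter (fun i => w i ≠ w (finRotate (N + 1) i))).card

section
variable {A : Type} [Fintype A] [DecidableEq A]

/-- weight of a step -/
noncomputable def th (a b : A) : ℤ[X] := if a = b then 1 else X

/-- linear words with given end letters -/
noncomputable def PP (N : ℕ) (a b : A) : ℤ[X] :=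
  ∑ w : Fin (N + 1) → A, if w 0 = a ∧ w (Fin.last N) = b then
    ∏ i : Fin N, th (w i.castSucc) (w i.succ) else 0

lemma PP_succ (N : ℕ) (a b : A) : PP (N + 1) a b = ∑ c, PP N a c * th c b := by
  unfold PP
  rw [← (Fin.snocEquiv (fun _ : Fin (N + 1 + 1) => A)).sum_comp, Fintype.sum_prod_type]
  rw [Finset.sum_eq_single b]
  · simp_rw [Finset.sum_mul]
    rw [Finset.sum_comm]
    apply Finset.sum_congr rfl
    intro w _
    rw [Finset.sum_eq_single (w (Fin.last N))]
    · have h0 : (Fin.snocEquiv (fun _ : Fin (N + 1 + 1) => A)) (b, w) 0 = w 0 := by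
        exact Fin.snoc_castSucc (α := fun _ => A) b w 0
      have h1 : (Fin.snocEquiv (fun _ : Fin (N + 1 + 1) => A)) (b, w) (Fin.last (N + 1)) = b :=
        Fin.snoc_last (α := fun _ => A) b w
      have h2 : ∀ i : Fin (N + 1), (Fin.snocEquiv (fun _ : Fin (N + 1 + 1) => A)) (b, w)
          i.castSucc = w i := fun i => Fin.snoc_castSucc (α := fun _ => A) b w i
      rw [h0, h1]
      by_cases hw : w 0 = a
      · simp only [hw, and_self, if_true]
        rw [Fin.prod_univ_castSucc]
        congr 1
        · apply Finset.prod_congr rfl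
          intro i _
          rw [h2]
          have : i.castSucc.succ = i.succ.castSucc := rfl
          rw [this, h2]
        · rw [h2]
          have : (Fin.last N).succ = Fin.last (N + 1) := rfl
          rw [this, h1]
      · simp only [hw, false_and, if_false, zero_mul]
    · intro c _ hc
      rw [if_neg (fun h => hc h.2.symm), zero_mul]
    · intro h
      exact absurd (Finset.mem_univ _) h
  · intro b' _ hb'
    apply Finset.sum_eq_zero
    intro w _
    have h1 : (Fin.snocEquiv (fun _ : Fin (N + 1 + 1) => A)) (b', w) (Fin.last (N + 1)) = b' :=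
      Fin.snoc_last (α := fun _ => A) b' w
    rw [if_neg]
    rintro ⟨-, h⟩
    exact hb' (h1.symm.trans h)
  · intro h
    exact absurd (Finset.mem_univ _) h

lemma sum_th (b : A) : ∑ c : A, th c b = 1 + ((Fintype.card A : ℤ[X]) - 1) * X := by
  unfold th
  rw [← Finset.add_sum_erase _ _ (Finset.mem_univ b), if_pos rfl,
    Finset.sum_congr rfl (g := fun _ => (X : ℤ[X])) (fun c hc => if_neg (Finset.ne_of_mem_erase hc)),
    Finset.sum_const, Finset.card_erase_of_mem (Finset.mem_univ b), Finset.card_univ, nsmul_eq_mul]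
  have : 1 ≤ Fintype.card A := Fintype.card_pos_iff.mpr ⟨b⟩
  push_cast [Nat.cast_sub this]
  ring

lemma PP_closed (N : ℕ) : ∀ a b : A, (Fintype.card A : ℤ[X]) * PP N a b =
    (1 + ((Fintype.card A : ℤ[X]) - 1) * X) ^ N +
      ((Fintype.card A : ℤ[X]) * (if a = b then 1 else 0) - 1) * (1 - X) ^ N := by
  induction N with
  | zero =>
    intro a b
    have : PP 0 a b = if a = b then 1 else 0 := by
      unfold PP
      rw [Finset.sum_eq_single (fun _ => a)]
      · simp
      · intro w _ hw
        rw [if_neg]
        rintro ⟨h, -⟩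
        apply hw
        funext i
        have hi : i = 0 := Fin.ext (by simp)
        rw [hi, h]
      · intro h
        exact absurd (Finset.mem_univ _) h
    rw [this]
    ring
  | succ N ih =>
    intro a b
    rw [PP_succ, Finset.mul_sum]
    have h1 : ∀ c : A, (Fintype.card A : ℤ[X]) * (PP N a c * th c b) =
        ((1 + ((Fintype.card A : ℤ[X]) - 1) * X) ^ N - (1 - X) ^ N) * th c b +
          (Fintype.card A : ℤ[X]) * (1 - X) ^ N * (if a = c then th c b else 0) := by
      intro c
      rw [← mul_assoc, ih a c]
      split_ifs <;> ring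
    rw [Finset.sum_congr rfl (fun c _ => h1 c), Finset.sum_add_distrib, ← Finset.mul_sum,
      ← Finset.mul_sum, sum_th, Finset.sum_ite_eq, if_pos (Finset.mem_univ a)]
    unfold th
    split_ifs <;> ring

lemma prod_th {N : ℕ} (w : Fin (N + 1) → A) :
    ∏ i, th (w i) (w (finRotate (N + 1) i)) = (X : ℤ[X]) ^ ch w := by
  unfold th ch
  rw [Finset.prod_ite, Finset.prod_const_one, one_mul, Finset.prod_const]

lemma sum_ch (N : ℕ) (hA : 0 < Fintype.card A) : ∑ w : Fin (N + 1) → A, (X : ℤ[X]) ^ ch w =
    (1 + ((Fintype.card A : ℤ[X]) - 1) * X) ^ (N + 1) +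
      ((Fintype.card A : ℤ[X]) - 1) * (1 - X) ^ (N + 1) := by
  have h1 : ∑ w : Fin (N + 1) → A, (X : ℤ[X]) ^ ch w = ∑ a : A, ∑ b : A, PP N a b * th b a := by
    unfold PP
    simp_rw [Finset.sum_mul]
    have h2 : ∀ a : A, ∑ b : A, ∑ w : Fin (N + 1) → A,
        (if w 0 = a ∧ w (Fin.last N) = b then ∏ i : Fin N, th (w i.castSucc) (w i.succ) else 0) *
          th b a = ∑ w : Fin (N + 1) → A, (if w 0 = a then
          (∏ i : Fin N, th (w i.castSucc) (w i.succ)) * th (w (Fin.last N)) a else 0) := by
      intro a
      rw [Finset.sum_comm]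
      apply Finset.sum_congr rfl
      intro w _
      rw [Finset.sum_eq_single (w (Fin.last N))]
      · by_cases hw : w 0 = a
        · simp [hw]
        · simp [hw]
      · intro c _ hc
        rw [if_neg (fun h => hc h.2.symm), zero_mul]
      · intro h
        exact absurd (Finset.mem_univ _) h
    simp_rw [h2]
    rw [Finset.sum_comm]
    apply Finset.sum_congr rfl
    intro w _
    rw [Finset.sum_ite_eq, if_pos (Finset.mem_univ _), ← prod_th, Fin.prod_univ_castSucc]
    congr 1
    · apply Finset.prod_congr rfl
      intro i _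
      congr 2
      apply Fin.ext
      rw [coe_finRotate_of_ne_last (Fin.castSucc_lt_last i).ne]
      rfl
    · rw [finRotate_last]
  have hk : ((Fintype.card A : ℕ) : ℤ[X]) ≠ 0 := by
    exact_mod_cast hA.ne'
  apply mul_left_cancel₀ hk
  rw [h1, Finset.mul_sum]
  have h3 : ∀ a : A, (Fintype.card A : ℤ[X]) * ∑ b : A, PP N a b * th b a =
      (1 + ((Fintype.card A : ℤ[X]) - 1) * X) ^ (N + 1) +
      ((Fintype.card A : ℤ[X]) - 1) * (1 - X) ^ (N + 1) := by
    intro a
    rw [← PP_succ, PP_closed (N + 1) a a, if_pos rfl]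
    ring
  rw [Finset.sum_congr rfl (fun a _ => h3 a), Finset.sum_const, Finset.card_univ, nsmul_eq_mul]

lemma coeff_pow (c : ℤ) (n m : ℕ) :
    ((1 + C c * X : ℤ[X]) ^ n).coeff m = (n.choose m : ℤ) * c ^ m := by
  have : (1 + C c * X : ℤ[X]) ^ n = ((X + 1) ^ n : ℤ[X]).comp (C c * X) := by
    simp [add_comm]
  rw [this, comp_C_mul_X_coeff, coeff_X_add_one_pow]

/-- the number of words with `m` cyclic changes -/
lemma card_ch (N m : ℕ) (hA : 0 < Fintype.card A) :
    ((univ.filter (fun w : Fin (N + 1) → A => ch w = m)).card : ℤ) =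
      ((N + 1).choose m : ℤ) * (((Fintype.card A : ℤ) - 1) ^ m +
        ((Fintype.card A : ℤ) - 1) * (-1) ^ m) := by
  have h := congrArg (fun p : ℤ[X] => p.coeff m) (sum_ch (A := A) N hA)
  simp only [finsetSum_coeff, coeff_X_pow] at h
  have h1 : ((univ.filter (fun w : Fin (N + 1) → A => ch w = m)).card : ℤ) =
      ∑ w : Fin (N + 1) → A, (if m = ch w then (1 : ℤ) else 0) := by
    rw [Finset.card_filter]
    push_cast
    apply Finset.sum_congr rfl
    intro w _
    congr 1
    exact propext eq_comm
  rw [h1, h, coeff_add]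
  have e1 : (1 + ((Fintype.card A : ℤ[X]) - 1) * X) = 1 + C ((Fintype.card A : ℤ) - 1) * X := by
    simp
  have e2 : (1 - X : ℤ[X]) = 1 + C (-1) * X := by
    simp [sub_eq_add_neg]
  have e3 : ((Fintype.card A : ℤ[X]) - 1) = C ((Fintype.card A : ℤ) - 1) := by simp
  rw [e1, e2, e3, coeff_C_mul, coeff_pow, coeff_pow]
  ring

end

/-- words over three letters that use all letters -/
lemma card_surj (N m : ℕ) (hm : 1 ≤ m) :
    ((univ.filter (fun w : Fin (N + 1) → Fin 3 => Function.Surjective w ∧ ch w = m)).card : ℤ) =
      ((N + 1).choose m : ℤ) * (2 ^ m + 2 * (-1) ^ m - 3 * (1 + (-1) ^ m)) := by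
  have hall := card_ch (A := Fin 3) N m (by decide)
  have havoid : ∀ a : Fin 3,
      ((univ.filter (fun w : Fin (N + 1) → Fin 3 => (∀ i, w i ≠ a) ∧ ch w = m)).card : ℤ) =
      ((N + 1).choose m : ℤ) * (1 + (-1) ^ m) := by
    intro a
    have h := card_ch (A := {b : Fin 3 // b ≠ a}) N m (by revert a; decide)
    have hc : Fintype.card {b : Fin 3 // b ≠ a} = 2 := by
      rw [Fintype.card_subtype_compl, Fintype.card_fin, Fintype.card_unique]
    rw [hc] at h
    have e : (univ.filter (fun w : Fin (N + 1) → Fin 3 => (∀ i, w i ≠ a) ∧ ch w = m)).card =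
        (univ.filter (fun w : Fin (N + 1) → {b : Fin 3 // b ≠ a} => ch w = m)).card := by
      symm
      apply Finset.card_bij (fun w _ => fun i => (w i).1)
      · intro w hw
        rw [Finset.mem_filter] at hw ⊢
        refine ⟨Finset.mem_univ _, fun i => (w i).2, ?_⟩
        rw [← hw.2]
        unfold ch
        congr 1
        ext i
        simp [Subtype.ext_iff]
      · intro w _ w' _ h
        funext i
        exact Subtype.ext (congrFun h i)
      · intro w hw
        rw [Finset.mem_filter] at hw
        obtain ⟨-, hw1, hw2⟩ := hw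
        refine ⟨fun i => ⟨w i, hw1 i⟩, ?_, rfl⟩
        rw [Finset.mem_filter]
        refine ⟨Finset.mem_univ _, ?_⟩
        refine Eq.trans ?_ hw2
        unfold ch
        congr 1
        ext i
        simp [Subtype.ext_iff]
    rw [e, h]
    norm_num
  have hsum : (univ.filter (fun w : Fin (N + 1) → Fin 3 => ch w = m)).card =
      (univ.filter (fun w : Fin (N + 1) → Fin 3 => Function.Surjective w ∧ ch w = m)).card +
      ∑ a : Fin 3, (univ.filter (fun w : Fin (N + 1) → Fin 3 => (∀ i, w i ≠ a) ∧ ch w = m)).card := by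
    simp only [Finset.card_filter]
    rw [Finset.sum_comm, ← Finset.sum_add_distrib]
    apply Finset.sum_congr rfl
    intro w _
    by_cases hw : ch w = m
    · simp only [hw, and_true, if_true]
      -- w is not constant
      have hnc : ∃ i, w i ≠ w (finRotate (N + 1) i) := by
        by_contra hcon
        push Not at hcon
        have : ch w = 0 := by
          unfold ch
          rw [Finset.card_eq_zero, Finset.filter_eq_empty_iff]
          intro i _ h
          exact h (hcon i)
        omega
      obtain ⟨i, hi⟩ := hnc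
      by_cases hs : Function.Surjective w
      · have : ∀ a : Fin 3, ¬ ∀ i, w i ≠ a := by
          intro a h
          obtain ⟨j, hj⟩ := hs a
          exact h j hj
        simp [hs, this]
      · have h1 : ∃ a, ∀ i, w i ≠ a := by
          unfold Function.Surjective at hs
          push Not at hs
          exact hs
        obtain ⟨a, ha⟩ := h1
        rw [if_neg hs, zero_add, Finset.sum_eq_single a]
        · rw [if_pos ha]
        · intro b _ hb
          rw [if_neg]
          intro hcon
          have c1 := ha i
          have c2 := ha (finRotate (N + 1) i)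
          have c3 := hcon i
          have c4 := hcon (finRotate (N + 1) i)
          omega
        · intro h
          exact absurd (Finset.mem_univ _) h
    · simp [hw]
  have hsum' : ((univ.filter (fun w : Fin (N + 1) → Fin 3 => ch w = m)).card : ℤ) =
      ((univ.filter (fun w : Fin (N + 1) → Fin 3 => Function.Surjective w ∧ ch w = m)).card : ℤ) +
      ∑ a : Fin 3,
        ((univ.filter (fun w : Fin (N + 1) → Fin 3 => (∀ i, w i ≠ a) ∧ ch w = m)).card : ℤ) := by
    exact_mod_cast hsum
  rw [hall] at hsum'
  simp only [havoid, Finset.sum_const, Finset.card_univ, Fintype.card_fin] at hsum'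
  norm_num at hsum'
  linarith

end Pool.Agent.Q283.GenusWords
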