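import Mathlib
import Pool.Agent.Q283.GenusWords

/-!
# The cycles of `τ⁻¹ σ` for a partition into few blocks
-/

open Finset Equiv Equiv.Perm

namespace Pool.Agent.Q283.GenusPerm

open Pool.Agent.Q283.GenusWords

/-- `τ` is the permutation whose cycles are the blocks, traversed in increasing order. -/
def IsBlockCycle {n : ℕ} (r : Setoid (Fin n)) (τ : Perm (Fin n)) : Prop :=
  ∀ i, r i (τ i) ∧ ((i < τ i ∧ ∀ j, i < j → r i j → τ i ≤ j) ∨ (∀ j, r i j → τ i ≤ j ∧ j ≤ i))

/-- number of cycles (fixed points included) -/
def cyc {n : ℕ} (π : Perm (Fin n)) : ℕ := π.partition.parts.card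

lemma cyc_eq {n : ℕ} (π : Perm (Fin n)) : cyc π = π.cycleType.card + (n - π.support.card) := by
  rw [cyc, Equiv.Perm.parts_partition, Multiset.card_add, Multiset.card_replicate,
    Fintype.card_fin]

lemma exists_blockCycle {n : ℕ} (r : Setoid (Fin n)) : ∃ τ, IsBlockCycle r τ := by
  classical
  have h : ∀ i : Fin n, ∃ t, r i t ∧ ((i < t ∧ ∀ j, i < j → r i j → t ≤ j) ∨
      (∀ j, r i j → t ≤ j ∧ j ≤ i)) := by
    intro i
    by_cases hex : ∃ j, i < j ∧ r i j
    · have hne : (univ.filter (fun j => i < j ∧ r i j)).Nonempty := by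
        obtain ⟨j, hj⟩ := hex
        exact ⟨j, by simp [hj]⟩
      have hm := Finset.min'_mem _ hne
      rw [Finset.mem_filter] at hm
      refine ⟨(univ.filter (fun j => i < j ∧ r i j)).min' hne, hm.2.2, Or.inl ⟨hm.2.1, ?_⟩⟩
      intro j h1 h2
      exact Finset.min'_le _ _ (by simp [h1, h2])
    · push Not at hex
      have hne : (univ.filter (fun j => r i j)).Nonempty := ⟨i, by simp [r.refl i]⟩
      have hm := Finset.min'_mem _ hne
      rw [Finset.mem_filter] at hm
      refine ⟨(univ.filter (fun j => r i j)).min' hne, hm.2, Or.inr ?_⟩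
      intro j hj
      refine ⟨Finset.min'_le _ _ (by simp [hj]), ?_⟩
      by_contra hcon
      exact hex j (not_le.mp hcon) hj
  choose f hf using h
  have hinj : Function.Injective f := by
    have key : ∀ i i', i < i' → f i ≠ f i' := by
      intro i i' hlt he
      have h1 := hf i
      have h2 := hf i'
      have hr : r i i' := r.trans h1.1 (r.symm (he ▸ h2.1))
      rcases h1.2 with ⟨h3, h4⟩ | h3
      · have h5 := h4 i' hlt hr
        rcases h2.2 with ⟨h6, -⟩ | h6
        · rw [← he] at h6
          exact absurd (h5.trans_lt h6) (lt_irrefl _)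
        · have h7 := (h6 i (r.symm hr)).1
          rw [← he] at h7
          exact absurd (h7.trans_lt h3) (lt_irrefl _)
      · have := (h3 i' hr).2
        exact absurd (this.trans_lt hlt) (lt_irrefl _)
    intro i i' he
    rcases lt_trichotomy i i' with h | h | h
    · exact absurd he (key i i' h)
    · exact h
    · exact absurd he.symm (key i' i h)
  refine ⟨Equiv.ofBijective f (Finite.injective_iff_bijective.mp hinj), fun i => ?_⟩
  exact hf i

/-- positions in the same block are in the same cycle -/
lemma sameCycle_iff {n : ℕ} {r : Setoid (Fin n)} {τ : Perm (Fin n)} (h : IsBlockCycle r τ)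
    (i j : Fin n) : τ.SameCycle i j ↔ r i j := by
  constructor
  · rintro ⟨k, rfl⟩
    have h1 : ∀ i, r i (τ i) := fun i => (h i).1
    have h2 : ∀ i, r i (τ⁻¹ i) := by
      intro i
      have := h1 (τ⁻¹ i)
      rw [(show τ (τ⁻¹ i) = i from τ.apply_symm_apply i)] at this
      exact r.symm this
    induction k using Int.induction_on with
    | zero => exact r.refl i
    | succ k ih =>
      rw [add_comm, zpow_add, zpow_one, Perm.mul_apply]
      exact r.trans ih (h1 _)
    | pred k ih =>
      rw [sub_eq_add_neg, add_comm, zpow_add, zpow_neg_one, Perm.mul_apply]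
      exact r.trans ih (h2 _)
  · have key : ∀ d : ℕ, ∀ i j : Fin n, (j : ℕ) = i + d → r i j → τ.SameCycle i j := by
      intro d
      induction d using Nat.strong_induction_on with
      | _ d ih =>
        intro i j hij hr
        rcases Nat.eq_zero_or_pos d with hd | hd
        · have : i = j := Fin.ext (by omega)
          rw [this]
        · have hlt : i < j := by
            rw [Fin.lt_def]; omega
          rcases (h i).2 with ⟨h1, h2⟩ | h1
          · have h3 := h2 j hlt hr
            rw [Fin.lt_def] at h1
            rw [Fin.le_def] at h3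
            have h4 := ih (j - τ i) (by omega) (τ i) j (by omega)
              (r.trans (r.symm (h i).1) hr)
            exact (Equiv.Perm.sameCycle_apply_left).mp h4
          · have := (h1 j hr).2
            exact absurd (this.trans_lt hlt) (lt_irrefl _)
    intro hr
    rcases le_total i j with hle | hle
    · exact key (j - i) i j (by rw [Fin.le_def] at hle; omega) hr
    · exact (key (i - j) j i (by rw [Fin.le_def] at hle; omega) (r.symm hr)).symm

lemma card_image_eq {α β γ : Type} [DecidableEq α] [DecidableEq β] [DecidableEq γ] (s : Finset α)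
    (f : α → β) (g : α → γ) : (∀ i ∈ s, ∀ j ∈ s, (f i = f j ↔ g i = g j)) →
    (s.image f).card = (s.image g).card := by
  induction s using Finset.induction_on with
  | empty => intro _; simp
  | insert a s ha ih =>
    intro h
    rw [Finset.image_insert, Finset.image_insert]
    have ih' := ih (fun i hi j hj => h i (mem_insert_of_mem hi) j (mem_insert_of_mem hj))
    have hiff : f a ∈ s.image f ↔ g a ∈ s.image g := by
      rw [Finset.mem_image, Finset.mem_image]
      constructor
      · rintro ⟨j, hj, e⟩
        exact ⟨j, hj, (h j (mem_insert_of_mem hj) a (mem_insert_self _ _)).mp e⟩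
      · rintro ⟨j, hj, e⟩
        exact ⟨j, hj, (h j (mem_insert_of_mem hj) a (mem_insert_self _ _)).mpr e⟩
    by_cases hf : f a ∈ s.image f
    · rw [Finset.insert_eq_of_mem hf, Finset.insert_eq_of_mem (hiff.mp hf), ih']
    · rw [Finset.card_insert_of_notMem hf, Finset.card_insert_of_notMem (fun c => hf (hiff.mpr c)),
        ih']

lemma cycleFactors_eq_image {n : ℕ} (π : Perm (Fin n)) :
    π.cycleFactorsFinset = π.support.image (fun i => π.cycleOf i) := by
  ext c
  rw [Finset.mem_image]
  constructor
  · intro hc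
    obtain ⟨i, hi⟩ := (Equiv.Perm.mem_cycleFactorsFinset_iff.mp hc).1.nonempty_support
    refine ⟨i, Equiv.Perm.mem_cycleFactorsFinset_support_le hc hi, ?_⟩
    exact (Equiv.Perm.cycle_is_cycleOf hi hc).symm
  · rintro ⟨i, hi, rfl⟩
    exact Equiv.Perm.cycleOf_mem_cycleFactorsFinset_iff.mpr hi

lemma card_cycleType {n : ℕ} (π : Perm (Fin n)) :
    π.cycleType.card = (π.support.image (fun i => π.cycleOf i)).card := by
  rw [← cycleFactors_eq_image, Equiv.Perm.cycleType_def, Multiset.card_map]
  rfl

/-- cycles and classes -/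
lemma card_classes {n : ℕ} {A : Type} [DecidableEq A] (π : Perm (Fin n)) (w : Fin n → A)
    (h : ∀ i j, π.SameCycle i j ↔ w i = w j) :
    (univ.image w).card + π.support.card = π.cycleType.card + n := by
  have h1 : π.cycleType.card = (π.support.image w).card := by
    rw [card_cycleType]
    apply card_image_eq
    intro i hi j hj
    rw [← h]
    constructor
    · intro he
      have : j ∈ (π.cycleOf i).support := by
        rw [he, Equiv.Perm.mem_support_cycleOf_iff]
        exact ⟨SameCycle.refl _ _, hj⟩
      rw [Equiv.Perm.mem_support_cycleOf_iff] at this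
      exact this.1
    · intro hs
      exact hs.cycleOf_eq
  have h2 : (univ.image w) = (π.support.image w) ∪ (π.supportᶜ.image w) := by
    rw [← Finset.image_union, Finset.union_compl]
  have hfix : ∀ i ∈ π.supportᶜ, ∀ j, w i = w j → i = j := by
    intro i hi j hij
    rw [Finset.mem_compl, Equiv.Perm.mem_support, not_not] at hi
    obtain ⟨k, hk⟩ := (h i j).mpr hij
    rw [Equiv.Perm.zpow_apply_eq_self_of_apply_eq_self hi] at hk
    exact hk
  have h3 : Disjoint (π.support.image w) (π.supportᶜ.image w) := by
    rw [Finset.disjoint_left]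
    intro a ha hb
    rw [Finset.mem_image] at ha hb
    obtain ⟨i, hi, rfl⟩ := ha
    obtain ⟨j, hj, hji⟩ := hb
    have := hfix j hj i hji
    rw [this, Finset.mem_compl] at hj
    exact hj hi
  rw [h2, Finset.card_union_of_disjoint h3, ← h1, Finset.card_image_of_injOn (s := π.supportᶜ),
    Finset.card_compl, Fintype.card_fin]
  · have := Finset.card_le_univ π.support
    rw [Fintype.card_fin] at this
    omega
  · intro i hi j _ hij
    exact hfix i hi j hij

lemma sign_eq {n : ℕ} {A : Type} [DecidableEq A] (π : Perm (Fin n)) (w : Fin n → A)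
    (h : ∀ i j, π.SameCycle i j ↔ w i = w j) :
    Equiv.Perm.sign π = (-1) ^ (n + (univ.image w).card) := by
  have h1 := card_classes π w h
  rw [Equiv.Perm.sign_of_cycleType, Equiv.Perm.sum_cycleType]
  have h2 : n + (univ.image w).card + 2 * π.support.card =
      π.support.card + π.cycleType.card + 2 * n := by omega
  have h3 : ((-1 : ℤˣ)) ^ (n + (univ.image w).card + 2 * π.support.card) =
      (-1) ^ (π.support.card + π.cycleType.card + 2 * n) := by rw [h2]
  rw [pow_add _ _ (2 * _), pow_add _ _ (2 * _), pow_mul, pow_mul] at h3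
  simpa using h3.symm

/-! ### The permutation `τ⁻¹ σ` -/

section
variable {N : ℕ} {w : Fin (N + 1) → Fin 3} {τ : Perm (Fin (N + 1))}
  (h : IsBlockCycle (Setoid.ker w) τ)
include h

lemma tau_eq {i j : Fin (N + 1)} (h1 : w j = w (finRotate (N + 1) i)) (h2 : j ≤ i)
    (h3 : ∀ k, j < k → k ≤ i → w k ≠ w (finRotate (N + 1) i)) :
    τ j = finRotate (N + 1) i := by
  have hr : w j = w (τ j) := (h j).1
  by_cases hi : i = Fin.last N
  · subst hi
    rw [finRotate_last] at h1 h3 ⊢
    rcases (h j).2 with ⟨h4, -⟩ | h4
    · exact absurd (hr.symm.trans h1) (h3 (τ j) h4 (Fin.le_last _))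
    · exact le_antisymm (h4 0 h1).1 (Fin.zero_le _)
  · have hv : ((finRotate (N + 1) i : Fin (N + 1)) : ℕ) = i + 1 := coe_finRotate_of_ne_last hi
    rcases (h j).2 with ⟨h4, h5⟩ | h4
    · have h6 := h5 (finRotate (N + 1) i) (by rw [Fin.lt_def, hv]; rw [Fin.le_def] at h2; omega) h1
      apply le_antisymm h6
      rw [Fin.le_def, hv]
      by_contra hcon
      push Not at hcon
      exact h3 (τ j) h4 (by rw [Fin.le_def]; omega) (hr.symm.trans h1)
    · have := (h4 (finRotate (N + 1) i) h1).2
      rw [Fin.le_def, hv] at this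
      rw [Fin.le_def] at h2
      omega

lemma color_beta (i : Fin (N + 1)) :
    w ((τ⁻¹ * finRotate (N + 1)) i) = w (finRotate (N + 1) i) := by
  have h1 : w (τ⁻¹ (finRotate (N + 1) i)) = w (τ (τ⁻¹ (finRotate (N + 1) i))) :=
    (h (τ⁻¹ (finRotate (N + 1) i))).1
  rw [show τ (τ⁻¹ (finRotate (N + 1) i)) = finRotate (N + 1) i from τ.apply_symm_apply _] at h1
  exact h1

lemma support_beta : (τ⁻¹ * finRotate (N + 1)).support =
    univ.filter (fun i => w i ≠ w (finRotate (N + 1) i)) := by
  ext i
  rw [Equiv.Perm.mem_support, Finset.mem_filter]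
  constructor
  · intro hi
    refine ⟨Finset.mem_univ _, fun he => hi ?_⟩
    have := tau_eq h he le_rfl (fun k h1 h2 => absurd (h1.trans_le h2) (lt_irrefl _))
    rw [Equiv.Perm.mul_apply, ← this]
    exact τ.symm_apply_apply i
  · rintro ⟨-, hi⟩ he
    apply hi
    have := color_beta h i
    rw [he] at this
    exact this

/-- first positions -/
lemma descend (i : Fin (N + 1)) (hi : w i ≠ w (finRotate (N + 1) i)) :
    ∃ i0, w i0 ≠ w (finRotate (N + 1) i0) ∧ (∀ j < i0, w j ≠ w (finRotate (N + 1) i0)) ∧
      (τ⁻¹ * finRotate (N + 1)).SameCycle i i0 := by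
  induction i using WellFoundedLT.induction with
  | _ i ih =>
    by_cases hex : ∀ j < i, w j ≠ w (finRotate (N + 1) i)
    · exact ⟨i, hi, hex, SameCycle.refl _ _⟩
    · push Not at hex
      have hne : (univ.filter (fun j => j < i ∧ w j = w (finRotate (N + 1) i))).Nonempty := by
        obtain ⟨j, hj⟩ := hex
        exact ⟨j, by simp [hj]⟩
      have hm := Finset.max'_mem _ hne
      have hmax := fun k hk => Finset.le_max' (univ.filter
        (fun j => j < i ∧ w j = w (finRotate (N + 1) i))) k hk
      set j := (univ.filter (fun j => j < i ∧ w j = w (finRotate (N + 1) i))).max' hne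
      rw [Finset.mem_filter] at hm
      have hτ : τ j = finRotate (N + 1) i := by
        apply tau_eq h hm.2.2 hm.2.1.le
        intro k hk1 hk2 hk3
        rcases lt_or_eq_of_le hk2 with hk | hk
        · have := hmax k (by simp [hk, hk3])
          exact absurd (this.trans_lt hk1) (lt_irrefl _)
        · rw [hk] at hk3
          exact hi hk3
      have hβ : (τ⁻¹ * finRotate (N + 1)) i = j := by
        rw [Equiv.Perm.mul_apply, ← hτ]
        exact τ.symm_apply_apply j
      have hisupp : i ∈ (τ⁻¹ * finRotate (N + 1)).support := by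
        rw [support_beta h, Finset.mem_filter]
        exact ⟨Finset.mem_univ _, hi⟩
      have hjsupp : j ∈ (τ⁻¹ * finRotate (N + 1)).support := by
        rw [← hβ, Equiv.Perm.apply_mem_support]
        exact hisupp
      rw [support_beta h, Finset.mem_filter] at hjsupp
      obtain ⟨i0, h1, h2, h3⟩ := ih j hm.2.1 hjsupp.2
      refine ⟨i0, h1, h2, ?_⟩
      have h4 : (τ⁻¹ * finRotate (N + 1)).SameCycle i j := ⟨1, by rw [zpow_one]; exact hβ⟩
      exact h4.trans h3

lemma card_cycleType_le : (τ⁻¹ * finRotate (N + 1)).cycleType.card ≤ 2 := by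
  rw [card_cycleType]
  have hsub : (τ⁻¹ * finRotate (N + 1)).support.image
      (fun i => (τ⁻¹ * finRotate (N + 1)).cycleOf i) ⊆
      (univ.filter (fun i0 => w i0 ≠ w (finRotate (N + 1) i0) ∧
        ∀ j < i0, w j ≠ w (finRotate (N + 1) i0))).image
      (fun i => (τ⁻¹ * finRotate (N + 1)).cycleOf i) := by
    intro c hc
    rw [Finset.mem_image] at hc ⊢
    obtain ⟨i, hi, rfl⟩ := hc
    rw [support_beta h, Finset.mem_filter] at hi
    obtain ⟨i0, h1, h2, h3⟩ := descend h i hi.2
    refine ⟨i0, ?_, h3.cycleOf_eq.symm⟩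
    rw [Finset.mem_filter]
    exact ⟨Finset.mem_univ _, h1, h2⟩
  refine (Finset.card_le_card hsub).trans (Finset.card_image_le.trans ?_)
  -- first positions inject into the colours different from `w 0`
  have hinj : Set.InjOn (fun i0 => w (finRotate (N + 1) i0))
      (univ.filter (fun i0 => w i0 ≠ w (finRotate (N + 1) i0) ∧
        ∀ j < i0, w j ≠ w (finRotate (N + 1) i0)) : Finset (Fin (N + 1))) := by
    have key : ∀ a b : Fin (N + 1), a < b → (w b ≠ w (finRotate (N + 1) b) ∧
        ∀ j < b, w j ≠ w (finRotate (N + 1) b)) →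
        w (finRotate (N + 1) a) ≠ w (finRotate (N + 1) b) := by
      intro a b hab hb
      have ha : a ≠ Fin.last N := (hab.trans_le (Fin.le_last _)).ne
      have hv : ((finRotate (N + 1) a : Fin (N + 1)) : ℕ) = a + 1 := coe_finRotate_of_ne_last ha
      have hle : finRotate (N + 1) a ≤ b := by
        rw [Fin.le_def, hv]
        rw [Fin.lt_def] at hab
        omega
      rcases lt_or_eq_of_le hle with hlt | he
      · exact hb.2 _ hlt
      · rw [he]; exact hb.1
    intro a ha b hb hab
    rw [Finset.coe_filter, Set.mem_ofPred_eq] at ha hb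
    rcases lt_trichotomy a b with hlt | he | hlt
    · exact absurd hab (key a b hlt hb.2)
    · exact he
    · exact absurd hab.symm (key b a hlt ha.2)
  rw [← Finset.card_image_of_injOn hinj]
  have hsub2 : (univ.filter (fun i0 => w i0 ≠ w (finRotate (N + 1) i0) ∧
        ∀ j < i0, w j ≠ w (finRotate (N + 1) i0))).image (fun i0 => w (finRotate (N + 1) i0)) ⊆
      univ.erase (w 0) := by
    intro a ha
    rw [Finset.mem_image] at ha
    obtain ⟨i0, hi0, rfl⟩ := ha
    rw [Finset.mem_filter] at hi0
    rw [Finset.mem_erase]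
    refine ⟨?_, Finset.mem_univ _⟩
    by_cases h0 : i0 = 0
    · intro e
      rw [h0] at hi0 e
      exact hi0.2.1 e.symm
    · exact fun e => hi0.2.2 0 (Fin.pos_iff_ne_zero.mpr h0) e.symm
  refine (Finset.card_le_card hsub2).trans ?_
  rw [Finset.card_erase_of_mem (Finset.mem_univ _), Finset.card_univ, Fintype.card_fin]

/-- the number of cycles of `τ⁻¹ σ` -/
lemma cyc_beta (hw : Function.Surjective w) :
    ∃ e, 1 ≤ e ∧ e ≤ 2 ∧ (e % 2 = ch w % 2) ∧
      cyc (τ⁻¹ * finRotate (N + 1)) = e + (N + 1 - ch w) ∧ ch w ≤ N + 1 := by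
  have hsupp : (τ⁻¹ * finRotate (N + 1)).support.card = ch w := by
    rw [support_beta h]
    rfl
  have hle : ch w ≤ N + 1 := by
    rw [← hsupp]
    refine (Finset.card_le_univ _).trans ?_
    rw [Fintype.card_fin]
  refine ⟨(τ⁻¹ * finRotate (N + 1)).cycleType.card, ?_, card_cycleType_le h, ?_, ?_, hle⟩
  · -- nontrivial
    by_contra hcon
    have h0 : (τ⁻¹ * finRotate (N + 1)).cycleType.card = 0 := by omega
    rw [Multiset.card_eq_zero, Equiv.Perm.cycleType_eq_zero] at h0
    have hconst : ∀ i, w i = w (finRotate (N + 1) i) := by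
      intro i
      have := color_beta h i
      rw [h0] at this
      exact this
    have hc : ∀ i : Fin (N + 1), w i = w 0 := by
      intro i
      induction i using Fin.induction with
      | zero => rfl
      | succ i ih =>
        rw [← ih, hconst i.castSucc]
        congr 1
        apply Fin.ext
        rw [coe_finRotate_of_ne_last (Fin.castSucc_lt_last i).ne]
        rfl
    obtain ⟨a, ha⟩ := hw 0
    obtain ⟨b, hb⟩ := hw 1
    rw [hc a] at ha
    rw [hc b, ha] at hb
    exact absurd hb (by decide)
  · -- parity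
    have hsτ : Equiv.Perm.sign τ = (-1) ^ (N + 1 + (univ.image w).card) := by
      apply sign_eq τ w
      intro i j
      exact sameCycle_iff h i j
    have him : (univ.image w).card = 3 := by
      rw [Finset.image_univ_of_surjective hw, Finset.card_univ, Fintype.card_fin]
    have hs : Equiv.Perm.sign (τ⁻¹ * finRotate (N + 1)) = 1 := by
      rw [Equiv.Perm.sign_mul, Equiv.Perm.sign_inv, hsτ, sign_finRotate, him]
      rw [← pow_add]
      have : N + 1 + 3 + (N + 1 - 1) = 2 * (N + 2) := by omega
      rw [this, pow_mul]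
      simp
    rw [Equiv.Perm.sign_of_cycleType, Equiv.Perm.sum_cycleType, hsupp] at hs
    have hev : Even (ch w + (τ⁻¹ * finRotate (N + 1)).cycleType.card) := by
      by_contra hodd
      rw [Nat.not_even_iff_odd] at hodd
      rw [hodd.neg_one_pow] at hs
      exact absurd hs (by decide)
    obtain ⟨t, ht⟩ := hev
    omega
  · rw [cyc_eq, hsupp]

end

end Pool.Agent.Q283.GenusPerm
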