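import Mathlib

/-!
# Partitions as multiplicity functions: elementary counting

`Pt n` : partitions of size at most `n`; `Pe n` : partitions of size exactly `n`.
-/

open Finset

namespace Pool.Agent.Q283.PartCount

/-- weight of a multiplicity function, up to part `n` -/
def wt (n : ℕ) (c : ℕ → ℕ) : ℕ := ∑ i ∈ range (n + 1), i * c i

/-- multiplicity functions with parts between `1` and `n` -/
def Ok (n : ℕ) (c : ℕ → ℕ) : Prop := c 0 = 0 ∧ ∀ i, n < i → c i = 0

/-- partitions of size at most `n` -/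
def Pt (n : ℕ) : Set (ℕ → ℕ) := {c | Ok n c ∧ wt n c ≤ n}

/-- partitions of size `n` -/
def Pe (n : ℕ) : Set (ℕ → ℕ) := {c | Ok n c ∧ wt n c = n}

lemma Pe_sub (n : ℕ) : Pe n ⊆ Pt n := fun _ h => ⟨h.1, h.2.le⟩

lemma le_of_mem {n : ℕ} {c : ℕ → ℕ} (h : c ∈ Pt n) (i : ℕ) : c i ≤ n := by
  rcases Nat.eq_zero_or_pos i with h0 | h0
  · rw [h0, h.1.1]; omega
  · by_cases hi : n < i
    · rw [h.1.2 i hi]; omega
    · have h1 : i * c i ≤ wt n c := by
        unfold wt
        exact Finset.single_le_sum (f := fun i => i * c i) (fun _ _ => Nat.zero_le _)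
          (Finset.mem_range.mpr (by omega))
      have h2 := h.2
      nlinarith

lemma finite_Pt (n : ℕ) : (Pt n).Finite := by
  have : (Set.univ : Set (Fin (n + 1) → Fin (n + 1))).Finite := Set.finite_univ
  apply Set.Finite.of_injOn (f := fun c (i : Fin (n + 1)) => (⟨min (c i) n, by omega⟩ : Fin (n + 1)))
    (t := Set.univ) (fun _ _ => trivial) _ this
  intro c hc d hd h
  funext i
  by_cases hi : n < i
  · rw [hc.1.2 i hi, hd.1.2 i hi]
  · have := congrArg Fin.val (congrFun h ⟨i, by omega⟩)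
    simp only at this
    have h1 := le_of_mem hc i
    have h2 := le_of_mem hd i
    rw [min_eq_left h1, min_eq_left h2] at this
    exact this

lemma finite_Pe (n : ℕ) : (Pe n).Finite := (finite_Pt n).subset (Pe_sub n)

/-! ### The set with `c 1` determined by the other multiplicities -/

lemma wt_update {n : ℕ} (hn : 1 ≤ n) (c : ℕ → ℕ) (t : ℕ) :
    wt n (Function.update c 1 (c 1 + t)) = wt n c + t := by
  unfold wt
  have h1 : (1 : ℕ) ∈ range (n + 1) := Finset.mem_range.mpr (by omega)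
  rw [← Finset.add_sum_erase _ _ h1, ← Finset.add_sum_erase _ _ h1]
  rw [Finset.sum_congr rfl (g := fun i => i * c i) (fun i hi => by
    rw [Function.update_of_ne (Finset.ne_of_mem_erase hi)])]
  simp
  ring

/-- sets on which `c 1` is determined by the rest are at most as large as `Pe n` -/
lemma ncard_det_le {n : ℕ} (hn : 1 ≤ n) (B : Set (ℕ → ℕ)) (hB : B ⊆ Pt n)
    (hdet : ∀ c ∈ B, ∀ d ∈ B, (∀ i, i ≠ 1 → c i = d i) → c 1 = d 1) :
    B.ncard ≤ (Pe n).ncard := by
  apply Set.ncard_le_ncard_of_injOn (fun c => Function.update c 1 (c 1 + (n - wt n c)))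
    (ht := finite_Pe n)
  · intro c hc
    have h := hB hc
    refine ⟨⟨?_, fun i hi => ?_⟩, ?_⟩
    · rw [Function.update_of_ne (by norm_num)]; exact h.1.1
    · rw [Function.update_of_ne (by omega)]; exact h.1.2 i hi
    · rw [wt_update hn]
      have := h.2
      omega
  · intro c hc d hd h
    have h1 : ∀ i, i ≠ 1 → c i = d i := by
      intro i hi
      have := congrFun h i
      simp only [Function.update_of_ne hi] at this
      exact this
    have h2 := hdet c hc d hd h1
    funext i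
    by_cases hi : i = 1
    · rw [hi, h2]
    · exact h1 i hi

/-! ### Elder's identity (inequality) -/

/-- number of distinct parts -/
def dst (n : ℕ) (c : ℕ → ℕ) : ℕ := ((range (n + 1)).filter (fun i => c i ≠ 0)).card

lemma wt_sub {n : ℕ} (c : ℕ → ℕ) {i : ℕ} (hi : i ≤ n) (hc : c i ≠ 0) :
    wt n (Function.update c i (c i - 1)) + i = wt n c := by
  unfold wt
  have h1 : i ∈ range (n + 1) := Finset.mem_range.mpr (by omega)
  rw [← Finset.add_sum_erase _ _ h1, ← Finset.add_sum_erase _ _ h1]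
  rw [Finset.sum_congr rfl (g := fun i => i * c i) (fun j hj => by
    rw [Function.update_of_ne (Finset.ne_of_mem_erase hj)])]
  rw [Function.update_self]
  obtain ⟨t, ht⟩ := Nat.exists_eq_succ_of_ne_zero hc
  rw [ht]
  simp only [Nat.succ_eq_add_one, Nat.add_sub_cancel]
  ring

lemma elder (n : ℕ) : ∑ c ∈ (finite_Pe n).toFinset, dst n c ≤ (Pt n).ncard := by
  classical
  have h1 : ∑ c ∈ (finite_Pe n).toFinset, dst n c =
      ((finite_Pe n).toFinset.sigma (fun c => (range (n + 1)).filter (fun i => c i ≠ 0))).card := by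
    rw [Finset.card_sigma]
    rfl
  rw [h1, ← Set.ncard_coe_finset]
  apply Set.ncard_le_ncard_of_injOn (fun p => Function.update p.1 p.2 (p.1 p.2 - 1))
    (ht := finite_Pt n)
  · rintro ⟨c, i⟩ hp
    simp only [Finset.coe_sigma, Set.mem_sigma_iff, Set.Finite.coe_toFinset, Finset.coe_filter,
      Set.mem_ofPred_eq, Finset.mem_range] at hp
    obtain ⟨hc, hi, hci⟩ := hp
    have hwt := wt_sub c (by omega : i ≤ n) hci
    have hc2 := hc.2
    refine ⟨⟨?_, fun j hj => ?_⟩, ?_⟩
    · by_cases h0 : (0 : ℕ) = i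
      · rw [← h0] at hci
        exact absurd hc.1.1 hci
      · simp only
        rw [Function.update_of_ne h0]; exact hc.1.1
    · simp only
      rw [Function.update_of_ne (by omega)]; exact hc.1.2 j hj
    · simp only
      omega
  · rintro ⟨c, i⟩ hp ⟨d, j⟩ hq h
    simp only [Finset.coe_sigma, Set.mem_sigma_iff, Set.Finite.coe_toFinset, Finset.coe_filter,
      Set.mem_ofPred_eq, Finset.mem_range] at hp hq
    obtain ⟨hc, hi, hci⟩ := hp
    obtain ⟨hd, hj, hdj⟩ := hq
    have hwt1 := wt_sub c (by omega : i ≤ n) hci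
    have hwt2 := wt_sub d (by omega : j ≤ n) hdj
    simp only at h
    rw [h] at hwt1
    have hij : i = j := by
      have h3 := hc.2
      have h4 := hd.2
      omega
    subst hij
    have hcd : c = d := by
      funext k
      have hk := congrFun h k
      by_cases hki : k = i
      · subst hki
        simp only [Function.update_self] at hk
        omega
      · simp only [Function.update_of_ne hki] at hk
        exact hk
    rw [hcd]

/-! ### Few distinct parts -/

lemma few (n D : ℕ) : {c ∈ Pe n | dst n c ≤ D}.ncard ≤ ((n + 1) * (n + 1)) ^ D := by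
  classical
  have hcard : (Set.univ : Set (Fin D → Fin (n + 1) × Fin (n + 1))).ncard =
      ((n + 1) * (n + 1)) ^ D := by
    rw [Set.ncard_univ, Nat.card_eq_fintype_card]
    simp
  rw [← hcard]
  set g : (Fin D → Fin (n + 1) × Fin (n + 1)) → (ℕ → ℕ) := fun f i =>
    ∑ t, if ((f t).1 : ℕ) = i then ((f t).2 : ℕ) else 0 with hg
  have hsub : {c ∈ Pe n | dst n c ≤ D} ⊆ g '' Set.univ := by
    rintro c ⟨hc, hd⟩
    set T := (range (n + 1)).filter (fun i => c i ≠ 0) with hT
    have hTd : T.card ≤ D := hd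
    have hTm : ∀ i ∈ T, i < n + 1 := fun i hi => by
      rw [hT, Finset.mem_filter, Finset.mem_range] at hi
      exact hi.1
    clear_value T
    -- enumerate the support
    set e := T.equivFin with he
    set F : Fin D → Fin (n + 1) × Fin (n + 1) := fun t => if ht : (t : ℕ) < T.card then
      (⟨(e.symm ⟨t, ht⟩ : ℕ), hTm _ (e.symm ⟨t, ht⟩).2⟩, ⟨c (e.symm ⟨t, ht⟩ : ℕ), by
        have := le_of_mem (Pe_sub n hc) (e.symm ⟨t, ht⟩ : ℕ)
        omega⟩) else (0, 0) with hF
    have F1 : ∀ (t : Fin D) (ht : (t : ℕ) < T.card), ((F t).1 : ℕ) = (e.symm ⟨t, ht⟩ : ℕ) := by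
      intro t ht
      simp only [hF, ht, dif_pos]
    have F2 : ∀ (t : Fin D) (ht : (t : ℕ) < T.card), ((F t).2 : ℕ) = c (e.symm ⟨t, ht⟩ : ℕ) := by
      intro t ht
      simp only [hF, ht, dif_pos]
    have F3 : ∀ t : Fin D, ¬ ((t : ℕ) < T.card) → ((F t).2 : ℕ) = 0 := by
      intro t ht
      simp only [hF, ht]
      rfl
    clear_value F
    refine ⟨F, trivial, ?_⟩
    funext i
    simp only [hg]
    by_cases hci : c i = 0
    · rw [hci]
      apply Finset.sum_eq_zero
      intro t _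
      by_cases ht : (t : ℕ) < T.card
      · rw [F1 t ht, F2 t ht]
        split_ifs with h
        · rw [h]; exact hci
        · rfl
      · rw [F3 t ht]
        simp
    · have hi : i ∈ T := by
        rw [hT, Finset.mem_filter, Finset.mem_range]
        refine ⟨?_, hci⟩
        by_contra h
        exact hci (hc.1.2 i (by omega))
      have hti : ((e ⟨i, hi⟩ : Fin T.card) : ℕ) < D := lt_of_lt_of_le (e ⟨i, hi⟩).2 hTd
      rw [Finset.sum_eq_single (⟨e ⟨i, hi⟩, hti⟩ : Fin D)]
      · rw [F1 _ (e ⟨i, hi⟩).2, F2 _ (e ⟨i, hi⟩).2]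
        simp
      · intro t _ hne
        by_cases ht : (t : ℕ) < T.card
        · rw [F1 t ht, F2 t ht, if_neg]
          intro h
          apply hne
          have h2 : e.symm ⟨t, ht⟩ = ⟨i, hi⟩ := Subtype.ext h
          have h3 : (⟨t, ht⟩ : Fin T.card) = e ⟨i, hi⟩ := by
            rw [← h2, Equiv.apply_symm_apply]
          apply Fin.ext
          have h4 := congrArg Fin.val h3
          exact h4
        · rw [F3 t ht]
          simp
      · intro h
        exact absurd (Finset.mem_univ _) h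
  refine (Set.ncard_le_ncard hsub (Set.finite_univ.image _)).trans ?_
  exact Set.ncard_image_le Set.finite_univ

/-! ### Many partitions -/

lemma many (n k : ℕ) (hk : 2 * k ^ 2 ≤ n) (hk1 : 1 ≤ k) : 2 ^ k ≤ (Pe n).ncard := by
  classical
  have hcard : ((range k).powerset : Set (Finset ℕ)).ncard = 2 ^ k := by
    rw [Set.ncard_coe_finset, Finset.card_powerset, Finset.card_range]
  rw [← hcard]
  set c0 : Finset ℕ → ℕ → ℕ := fun T i => if i < 2 then 0 else if i - 2 ∈ T then 1 else 0 with hc0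
  have hk2 : k ≤ k ^ 2 := by nlinarith
  have hok : ∀ T ∈ ((range k).powerset : Set (Finset ℕ)), c0 T ∈ Pt n := by
    intro T hT
    rw [Finset.mem_coe, Finset.mem_powerset] at hT
    refine ⟨⟨by simp [hc0], fun i hi => ?_⟩, ?_⟩
    · simp only [hc0]
      rw [if_neg (by omega), if_neg]
      intro h
      have := hT h
      rw [Finset.mem_range] at this
      omega
    · unfold wt
      have h1 : ∀ i ∈ range (n + 1), i * c0 T i ≤ if i < k + 2 then (if i < 2 then 0 else k + 1) else 0 := by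
        intro i _
        simp only [hc0]
        by_cases h2 : i < 2
        · simp [h2]
        · simp only [h2, if_false]
          by_cases h3 : i - 2 ∈ T
          · have := hT h3
            rw [Finset.mem_range] at this
            rw [if_pos h3, if_pos (by omega)]
            omega
          · rw [if_neg h3]
            simp
      refine (Finset.sum_le_sum h1).trans ?_
      rw [← Finset.sum_filter]
      have h4 : (range (n + 1)).filter (fun i => i < k + 2) = range (k + 2) := by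
        ext i
        rw [Finset.mem_filter, Finset.mem_range, Finset.mem_range]
        constructor
        · exact fun h => h.2
        · intro h
          refine ⟨?_, h⟩
          nlinarith
      rw [h4, Finset.sum_range_succ', Finset.sum_range_succ']
      simp
      nlinarith
  apply Set.ncard_le_ncard_of_injOn
    (fun T => Function.update (c0 T) 1 (c0 T 1 + (n - wt n (c0 T)))) (ht := finite_Pe n)
  · intro T hT
    have h := hok T hT
    have hn : 1 ≤ n := by nlinarith
    refine ⟨⟨?_, fun i hi => ?_⟩, ?_⟩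
    · rw [Function.update_of_ne (by norm_num)]; exact h.1.1
    · rw [Function.update_of_ne (by omega)]; exact h.1.2 i hi
    · rw [wt_update hn]
      have := h.2
      omega
  · intro T hT U hU h
    ext i
    have := congrFun h (i + 2)
    simp only at this
    rw [Function.update_of_ne (by omega), Function.update_of_ne (by omega)] at this
    have hv : ∀ T : Finset ℕ, c0 T (i + 2) = if i ∈ T then 1 else 0 := by
      intro T
      simp [hc0]
    rw [hv, hv] at this
    by_cases h1 : i ∈ T <;> by_cases h2 : i ∈ U <;> simp [h1, h2] at this ⊢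

/-! ### Partitions with many parts `1` -/

/-- shift the multiplicities of `2, …, L + 1` up by one -/
def G (L x y : ℕ) (c : ℕ → ℕ) : ℕ → ℕ := fun i =>
  if i = 0 then 0 else if i = 1 then x else if i = 2 then y else if i < L + 3 then c (i - 1) else c i

lemma G_one (L x y : ℕ) (c : ℕ → ℕ) : G L x y c 1 = x := by simp [G]
lemma G_two (L x y : ℕ) (c : ℕ → ℕ) : G L x y c 2 = y := by simp [G]
lemma G_mid (L x y : ℕ) (c : ℕ → ℕ) {i : ℕ} (hi : i < L) : G L x y c (i + 3) = c (i + 2) := by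
  simp [G, hi]
lemma G_big (L x y : ℕ) (c : ℕ → ℕ) {i : ℕ} (hi : L + 3 ≤ i) : G L x y c i = c i := by
  simp only [G]
  rw [if_neg (by omega), if_neg (by omega), if_neg (by omega), if_neg (by omega)]

lemma wt_split {L n : ℕ} (hn : L + 2 ≤ n) (f : ℕ → ℕ) : ∑ i ∈ range (n + 1), f i =
    ∑ i ∈ range (L + 3), f i + ∑ i ∈ Ico (L + 3) (n + 1), f i :=
  (Finset.sum_range_add_sum_Ico f (by omega)).symm

lemma wt_G {L n : ℕ} (hn : L + 2 ≤ n) (x y : ℕ) (c : ℕ → ℕ) :
    wt n (G L x y c) = x + 2 * y + ∑ i ∈ range L, (i + 3) * c (i + 2) +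
      ∑ i ∈ Ico (L + 3) (n + 1), i * c i := by
  unfold wt
  rw [wt_split hn]
  congr 1
  · rw [Finset.sum_range_succ', Finset.sum_range_succ', Finset.sum_range_succ']
    have h : ∑ k ∈ range L, (k + 1 + 1 + 1) * G L x y c (k + 1 + 1 + 1) =
        ∑ i ∈ range L, (i + 3) * c (i + 2) := by
      apply Finset.sum_congr rfl
      intro i hi
      rw [Finset.mem_range] at hi
      rw [show i + 1 + 1 + 1 = i + 3 from rfl, G_mid L x y c hi]
    rw [h]
    simp only [zero_add, one_mul, zero_mul, add_zero, G_one, G_two]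
    have : (1 + 1) * G L x y c (1 + 1) = 2 * y := by
      rw [show 1 + 1 = 2 from rfl, G_two]
    rw [this]
    ring
  · apply Finset.sum_congr rfl
    intro i hi
    rw [Finset.mem_Ico] at hi
    rw [G_big L x y c hi.1]

lemma wt_c {L n : ℕ} (hn : L + 2 ≤ n) (c : ℕ → ℕ) :
    wt n c = c 1 + ∑ i ∈ range L, (i + 2) * c (i + 2) + (L + 2) * c (L + 2) +
      ∑ i ∈ Ico (L + 3) (n + 1), i * c i := by
  unfold wt
  rw [wt_split hn]
  congr 1
  rw [Finset.sum_range_succ, Finset.sum_range_succ', Finset.sum_range_succ']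
  simp only [zero_add, one_mul, zero_mul, add_zero]
  rw [show ∑ k ∈ range L, (k + 1 + 1) * c (k + 1 + 1) = ∑ i ∈ range L, (i + 2) * c (i + 2) from rfl]
  ring

lemma shift_sum (L : ℕ) (c : ℕ → ℕ) : ∑ i ∈ range L, (i + 3) * c (i + 2) =
    ∑ i ∈ range L, (i + 2) * c (i + 2) + ∑ i ∈ range L, c (i + 2) := by
  rw [← Finset.sum_add_distrib]
  apply Finset.sum_congr rfl
  intro i _
  ring

lemma G_Ok {L n : ℕ} (hn : L + 2 ≤ n) (x y : ℕ) {c : ℕ → ℕ} (hc : Ok n c) : Ok n (G L x y c) := by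
  refine ⟨by simp [G], fun i hi => ?_⟩
  rw [G_big L x y c (by omega)]
  exact hc.2 i hi

lemma G_inj {L x y x' y' : ℕ} {c c' : ℕ → ℕ} (h : G L x y c = G L x' y' c') :
    x = x' ∧ y = y' ∧ (∀ i < L, c (i + 2) = c' (i + 2)) ∧ ∀ i, L + 3 ≤ i → c i = c' i := by
  refine ⟨?_, ?_, fun i hi => ?_, fun i hi => ?_⟩
  · have := congrFun h 1
    rwa [G_one, G_one] at this
  · have := congrFun h 2
    rwa [G_two, G_two] at this
  · have := congrFun h (i + 3)
    rwa [G_mid _ _ _ _ hi, G_mid _ _ _ _ hi] at this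
  · have := congrFun h i
    rwa [G_big _ _ _ _ hi, G_big _ _ _ _ hi] at this

lemma eq_of {L : ℕ} {n : ℕ} {c c' : ℕ → ℕ} (hc : Ok n c) (hc' : Ok n c') (h1 : c 1 = c' 1)
    (h2 : ∀ i < L, c (i + 2) = c' (i + 2)) (h3 : c (L + 2) = c' (L + 2))
    (h4 : ∀ i, L + 3 ≤ i → c i = c' i) : c = c' := by
  funext i
  rcases Nat.lt_or_ge i (L + 3) with hi | hi
  · rcases i with _ | _ | i
    · rw [hc.1, hc'.1]
    · exact h1
    · rcases Nat.lt_or_ge i L with h | h
      · exact h2 i h
      · have : i = L := by omega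
        rw [this]; exact h3
  · exact h4 i hi

/-- partitions whose number of ones is at least the number of parts in `[2, L + 2]` -/
def AA (n L : ℕ) : Set (ℕ → ℕ) :=
  {c ∈ Pt n | ∑ i ∈ range L, c (i + 2) + c (L + 2) ≤ c 1}

lemma AA_zero {n L : ℕ} (hn : L + 2 ≤ n) :
    {c ∈ AA n L | c (L + 2) = 0}.ncard ≤ 2 * (Pe n).ncard := by
  have hcard : ((Pe n) ×ˢ (Set.univ : Set (Fin 2))).ncard = 2 * (Pe n).ncard := by
    rw [Set.ncard_prod, Set.ncard_univ, Nat.card_eq_fintype_card, Fintype.card_fin, mul_comm]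
  rw [← hcard]
  set a : (ℕ → ℕ) → ℕ := fun c => c 1 - ∑ i ∈ range L, c (i + 2) with ha
  apply Set.ncard_le_ncard_of_injOn (fun c =>
    (G L (n - (wt n c - a c) - 2 * (a c / 2)) (a c / 2) c, (⟨a c % 2, Nat.mod_lt _ (by norm_num)⟩ : Fin 2)))
    (ht := (finite_Pe n).prod Set.finite_univ)
  · rintro c ⟨⟨hc, hc2⟩, hc3⟩
    refine ⟨⟨G_Ok hn _ _ hc.1, ?_⟩, trivial⟩
    simp only
    rw [wt_G hn, shift_sum]
    have h1 := wt_c hn c
    have h2 := hc.2
    have h3 : a c = c 1 - ∑ i ∈ range L, c (i + 2) := rfl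
    rw [hc3] at h1 hc2
    omega
  · rintro c ⟨⟨hc, hc2⟩, hc3⟩ d ⟨⟨hd, hd2⟩, hd3⟩ h
    rw [Prod.mk.injEq] at h
    obtain ⟨h1, h2⟩ := h
    obtain ⟨e1, e2, e3, e4⟩ := G_inj h1
    have h2' : a c % 2 = a d % 2 := congrArg Fin.val h2
    have hac : a c = a d := by omega
    have hs : ∑ i ∈ range L, c (i + 2) = ∑ i ∈ range L, d (i + 2) :=
      Finset.sum_congr rfl (fun i hi => e3 i (Finset.mem_range.mp hi))
    have h3 : a c = c 1 - ∑ i ∈ range L, c (i + 2) := rfl
    have h4 : a d = d 1 - ∑ i ∈ range L, d (i + 2) := rfl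
    refine eq_of (L := L) hc.1 hd.1 ?_ e3 (by rw [hc3, hd3]) e4
    omega

lemma AA_pos {n L J : ℕ} (hn : L + 2 ≤ n) (hJ : 2 * J ≤ L + 3) :
    J * {c ∈ AA n L | c (L + 2) ≠ 0}.ncard ≤ (Pt n).ncard := by
  have hcard : (({c ∈ AA n L | c (L + 2) ≠ 0}) ×ˢ (Set.univ : Set (Fin J))).ncard =
      J * {c ∈ AA n L | c (L + 2) ≠ 0}.ncard := by
    rw [Set.ncard_prod, Set.ncard_univ, Nat.card_eq_fintype_card, Fintype.card_fin, mul_comm]
  rw [← hcard]
  set a : (ℕ → ℕ) → ℕ := fun c => c 1 - ∑ i ∈ range L, c (i + 2) - c (L + 2) with ha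
  apply Set.ncard_le_ncard_of_injOn (fun p =>
    G L (a p.1) (J * (p.1 (L + 2) - 1) + (p.2 : ℕ)) p.1) (ht := finite_Pt n)
  · rintro ⟨c, j⟩ ⟨⟨⟨hc, hc2⟩, hc3⟩, -⟩
    refine ⟨G_Ok hn _ _ hc.1, ?_⟩
    simp only at hc hc2 hc3 ⊢
    rw [wt_G hn, shift_sum]
    have h1 := wt_c hn c
    have h2 := hc.2
    have h3 : a c = c 1 - ∑ i ∈ range L, c (i + 2) - c (L + 2) := rfl
    obtain ⟨b, hb⟩ := Nat.exists_eq_succ_of_ne_zero hc3
    rw [hb] at h1 hc2 h3 ⊢
    have hj := j.2
    simp only [Nat.succ_eq_add_one, Nat.add_sub_cancel] at h1 hc2 h3 ⊢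
    have h4 : 2 * (J * b + (j : ℕ)) ≤ (L + 3) * (b + 1) := by nlinarith
    have h5 : (L + 3) * (b + 1) = (L + 2) * (b + 1) + (b + 1) := by ring
    omega
  · rintro ⟨c, j⟩ ⟨⟨⟨hc, hc2⟩, hc3⟩, -⟩ ⟨d, j'⟩ ⟨⟨⟨hd, hd2⟩, hd3⟩, -⟩ h
    simp only at hc hc2 hc3 hd hd2 hd3 h
    obtain ⟨e1, e2, e3, e4⟩ := G_inj h
    have hj := j.2
    have hj' := j'.2
    obtain ⟨b, hb⟩ := Nat.exists_eq_succ_of_ne_zero hc3
    obtain ⟨b', hb'⟩ := Nat.exists_eq_succ_of_ne_zero hd3
    rw [hb, hb'] at e2
    simp only [Nat.succ_eq_add_one, Nat.add_sub_cancel] at e2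
    have hJ0 : 0 < J := by omega
    have f1 : (J * b + (j : ℕ)) / J = b := by
      rw [Nat.mul_add_div hJ0, Nat.div_eq_of_lt hj, add_zero]
    have f2 : (J * b' + (j' : ℕ)) / J = b' := by
      rw [Nat.mul_add_div hJ0, Nat.div_eq_of_lt hj', add_zero]
    have hbb : b = b' := by rw [← f1, ← f2, e2]
    have hjj : (j : ℕ) = j' := by rw [hbb] at e2; omega
    have hs : ∑ i ∈ range L, c (i + 2) = ∑ i ∈ range L, d (i + 2) :=
      Finset.sum_congr rfl (fun i hi => e3 i (Finset.mem_range.mp hi))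
    have h3 : a c = c 1 - ∑ i ∈ range L, c (i + 2) - c (L + 2) := rfl
    have h4 : a d = d 1 - ∑ i ∈ range L, d (i + 2) - d (L + 2) := rfl
    have hcd : c = d := by
      refine eq_of (L := L) hc.1 hd.1 ?_ e3 (by rw [hb, hb', hbb]) e4
      rw [hb] at h3 hc2
      rw [hb'] at h4 hd2
      simp only [Nat.succ_eq_add_one] at h3 h4 hc2 hd2
      omega
    rw [Prod.mk.injEq]
    exact ⟨hcd, Fin.ext hjj⟩

lemma AA_le {n L J : ℕ} (hn : L + 2 ≤ n) (hJ : 2 * J ≤ L + 3) :
    J * (AA n L).ncard ≤ (Pt n).ncard + 2 * J * (Pe n).ncard := by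
  have h1 := AA_zero hn
  have h2 := AA_pos hn hJ
  have h3 : (AA n L).ncard ≤ {c ∈ AA n L | c (L + 2) = 0}.ncard +
      {c ∈ AA n L | c (L + 2) ≠ 0}.ncard := by
    refine le_trans ?_ (Set.ncard_union_le _ _)
    apply Set.ncard_le_ncard _ ?_
    · intro c hc
      by_cases h : c (L + 2) = 0
      · exact Or.inl ⟨hc, h⟩
      · exact Or.inr ⟨hc, h⟩
    · apply (finite_Pt n).subset
      rintro c (⟨hc, -⟩ | ⟨hc, -⟩)
      · exact hc.1
      · exact hc.1
  nlinarith

end Pool.Agent.Q283.PartCount
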